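/-
MP_db50ff_an.CriticalExponent

There is an absolute constant `c > 0` such that in every dimension `n ≥ 2` some admissible function
satisfies a Lipschitz condition of order `c / (n (log n)²)`.
-/
import Mathlib
import Pool.Agent.Lib.DBX.LimitX

set_option autoImplicit false

namespace Pool.Agent.Results.MP_db50ff_an.CriticalExponent

open MeasureTheory Metric Complex Set Pool.Agent.MPdb50ff Pool.Agent.DBX

theorem result : ∃ c : ℝ, 0 < c ∧ ∀ n : ℕ, 2 ≤ n →
    ∃ f : Cn n → ℂ, Admissible n f ∧ LipOrder n (c / (n * Real.log n ^ 2)) f := by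
  refine ⟨1 / (2 * 10 ^ 20), by positivity, ?_⟩
  intro n hn
  have : NeZero n := ⟨by omega⟩
  obtain ⟨h, hc, hd, h0, hpos, ⟨C, hC⟩, hvol⟩ := exists_limitX (n := n) hn
    (α := 1 / (2 * 10 ^ 20) / (n * Real.log n ^ 2)) (by rw [div_div]; ring_nf)
  refine ⟨fun z => (h z - 1) / (h z + 1), ?_, ?_⟩
  · have hne : ∀ z ∈ closedBall (0 : Cn n) 1, h z + 1 ≠ 0 := by
      intro z hz h1
      have h2 := congrArg Complex.re h1
      simp only [Complex.add_re, Complex.one_re, Complex.zero_re] at h2
      linarith [hpos z hz]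
    have hcont : ContinuousOn (fun z => (h z - 1) / (h z + 1)) (closedBall (0 : Cn n) 1) :=
      (hc.sub continuousOn_const).div (hc.add continuousOn_const) hne
    have hnsq : ∀ x : ℂ, normSq (x + 1) - normSq (x - 1) = 4 * x.re := by
      intro x
      simp only [Complex.normSq_apply, Complex.add_re, Complex.add_im, Complex.sub_re,
        Complex.sub_im, Complex.one_re, Complex.one_im]
      ring
    refine ⟨hcont, ?_, ?_, ?_, ?_⟩
    · intro z hz
      have h1 : DifferentiableAt ℂ h z := hd.differentiableAt (isOpen_ball.mem_nhds hz)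
      have h2 : DifferentiableAt ℂ (fun z => (h z + 1)⁻¹) z :=
        (h1.add (differentiableAt_const _)).inv (hne z (ball_subset_closedBall hz))
      have h3 : DifferentiableAt ℂ (fun z => (h z - 1) * (h z + 1)⁻¹) z :=
        (h1.sub (differentiableAt_const _)).mul h2
      exact h3.differentiableWithinAt
    · intro z hz
      have h1 : 0 < ‖h z + 1‖ := norm_pos_iff.2 (hne z hz)
      rw [norm_div, div_le_one h1]
      have h2 := hnsq (h z)
      rw [Complex.normSq_eq_norm_sq, Complex.normSq_eq_norm_sq] at h2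
      have h3 := hpos z hz
      nlinarith [norm_nonneg (h z - 1)]
    · simp [h0]
    · refine lt_of_lt_of_le hvol (measure_mono ?_)
      intro ζ hre
      have hz : (ζ : Cn n) ∈ closedBall (0 : Cn n) 1 := sphere_subset_closedBall ζ.2
      have hre' : (h (ζ : Cn n)).re = 0 := hre
      have h1 : 0 < ‖h (ζ : Cn n) + 1‖ := norm_pos_iff.2 (hne _ hz)
      show ‖(h (ζ : Cn n) - 1) / (h (ζ : Cn n) + 1)‖ = 1
      rw [norm_div, div_eq_one_iff_eq h1.ne']
      have h2 := hnsq (h (ζ : Cn n))
      rw [Complex.normSq_eq_norm_sq, Complex.normSq_eq_norm_sq, hre'] at h2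
      nlinarith [norm_nonneg (h (ζ : Cn n) - 1)]
  · refine ⟨2 * C, ?_⟩
    intro z hz w hw
    have h1 : 1 ≤ ‖h z + 1‖ := by
      have := Complex.re_le_norm (h z + 1)
      rw [Complex.add_re, Complex.one_re] at this
      linarith [hpos z hz]
    have h2 : 1 ≤ ‖h w + 1‖ := by
      have := Complex.re_le_norm (h w + 1)
      rw [Complex.add_re, Complex.one_re] at this
      linarith [hpos w hw]
    have h1' : h z + 1 ≠ 0 := norm_pos_iff.1 (by linarith)
    have h2' : h w + 1 ≠ 0 := norm_pos_iff.1 (by linarith)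
    have e : (h z - 1) / (h z + 1) - (h w - 1) / (h w + 1) =
        2 * (h z - h w) / ((h z + 1) * (h w + 1)) := by
      field_simp
      ring
    rw [e, norm_div, norm_mul, norm_mul]
    have h3 : (1 : ℝ) ≤ ‖h z + 1‖ * ‖h w + 1‖ := one_le_mul_of_one_le_of_one_le h1 h2
    calc ‖(2 : ℂ)‖ * ‖h z - h w‖ / (‖h z + 1‖ * ‖h w + 1‖)
        ≤ ‖(2 : ℂ)‖ * ‖h z - h w‖ := div_le_self (by positivity) h3
      _ = 2 * ‖h z - h w‖ := by simp
      _ ≤ 2 * (C * ‖z - w‖ ^ (1 / (2 * 10 ^ 20) / (n * Real.log n ^ 2))) :=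
          mul_le_mul_of_nonneg_left (hC z hz w hw) (by norm_num)
      _ = 2 * C * ‖z - w‖ ^ (1 / (2 * 10 ^ 20) / (n * Real.log n ^ 2)) := by ring

end Pool.Agent.Results.MP_db50ff_an.CriticalExponent
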