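import Mathlib
import Pool.Agent.Lib.MP_db50ff_an.Defs
import Pool.Agent.Lib.MP_db50ff_an.A12

/-!
# No admissible function of the ball of `ℂ^n` is Hölder of order `1/n` or more

For `n ≥ 2` and every `α ≥ 1/n`, no admissible `f` (in the ball algebra, sup norm at most `1`,
`f(0) = 0`, unimodular on a set of positive measure of the sphere) satisfies a Lipschitz condition of
order `α`.  In particular order `1/2` is impossible for every `n ≥ 2`.
-/

namespace Pool.Agent.Results.MP_db50ff_an.OrderInvNImpossible

open Pool.Agent.MPdb50ff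

theorem result (n : ℕ) (hn : 2 ≤ n) (α : ℝ) (hα : 1 / (n : ℝ) ≤ α) :
    ¬ ∃ f : Cn n → ℂ, Admissible n f ∧ LipOrder n α f := by
  rintro ⟨f, hadm, hlip⟩
  exact no_order_inv hn hα hadm hlip

end Pool.Agent.Results.MP_db50ff_an.OrderInvNImpossible
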